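import Mathlib
import Pool.Agent.Lib.MP_6bc78b_nt.MS.Defs

set_option autoImplicit false

open Complex Set Filter Topology MeasureTheory

namespace Pool.Agent.Lib.MP_6bc78b_nt.MS.K

/-! Part I, chapter K: the Gamma integral in exponential coordinates, with a complex rate. -/

lemma exp_image : Real.exp '' univ = Ioi 0 := by rw [image_univ, Real.range_exp]

lemma integrable_exp_comp {σ ρ : ℝ} (hσ : 0 < σ) (hρ : 0 < ρ) :
    Integrable (fun v : ℝ => Real.exp (σ * v - ρ * Real.exp v)) := by
  have h1 : IntegrableOn (fun x : ℝ => x ^ (σ - 1) * Real.exp (-ρ * x ^ (1:ℝ))) (Ioi 0) :=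
    integrableOn_rpow_mul_exp_neg_mul_rpow (by linarith) one_pos hρ
  rw [← exp_image, integrableOn_image_iff_integrableOn_abs_deriv_smul MeasurableSet.univ
    (fun x _ => (Real.hasDerivAt_exp x).hasDerivWithinAt) (Real.exp_injective.injOn)] at h1
  rw [integrableOn_univ] at h1
  refine h1.congr (Filter.Eventually.of_forall fun v => ?_)
  simp only [smul_eq_mul, Real.rpow_one, abs_of_pos (Real.exp_pos v)]
  rw [← Real.exp_mul, ← Real.exp_add, ← Real.exp_add]
  congr 1
  ring

lemma norm_cexp_line (s a : ℂ) (v : ℝ) :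
    ‖cexp (s * v - a * Real.exp v)‖ = Real.exp (s.re * v - a.re * Real.exp v) := by
  rw [Complex.norm_exp]
  congr 1
  simp [Complex.mul_re, Complex.sub_re, -Complex.ofReal_exp]

lemma continuous_line (s a : ℂ) : Continuous (fun v : ℝ => cexp (s * v - a * Real.exp v)) := by
  have h1 : Continuous (fun v : ℝ => ((Real.exp v : ℝ) : ℂ)) :=
    Complex.continuous_ofReal.comp Real.continuous_exp
  have h2 : Continuous (fun v : ℝ => (v : ℂ)) := Complex.continuous_ofReal
  exact Complex.continuous_exp.comp ((continuous_const.mul h2).sub (continuous_const.mul h1))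

lemma integrable_line {s a : ℂ} (hs : 0 < s.re) (ha : 0 < a.re) :
    Integrable (fun v : ℝ => cexp (s * v - a * Real.exp v)) := by
  refine (integrable_exp_comp hs ha).mono' (continuous_line s a).aestronglyMeasurable ?_
  exact Filter.Eventually.of_forall fun v => (norm_cexp_line s a v).le

lemma gammaLine_real {s : ℂ} {ρ : ℝ} (hs : 0 < s.re) (hρ : 0 < ρ) :
    ∫ v : ℝ, cexp (s * v - ρ * Real.exp v) = cexp (-(s * Complex.log ρ)) * Complex.Gamma s := by
  have h0 := Complex.integral_cpow_mul_exp_neg_mul_Ioi (a := s) (r := ρ) hs hρ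
  rw [← exp_image, integral_image_eq_integral_abs_deriv_smul MeasurableSet.univ
    (fun x _ => (Real.hasDerivAt_exp x).hasDerivWithinAt) (Real.exp_injective.injOn),
    setIntegral_univ] at h0
  have h2 : ((1 : ℂ) / ρ) ^ s = cexp (-(s * Complex.log ρ)) := by
    have h3 : (1 / ρ : ℂ) ≠ 0 := by
      apply one_div_ne_zero; exact_mod_cast hρ.ne'
    rw [Complex.cpow_def_of_ne_zero h3]
    congr 1
    have h4 : Complex.log (1 / ρ : ℂ) = -Complex.log ρ := by
      rw [one_div, Complex.log_inv]
      rw [Complex.arg_ofReal_of_nonneg hρ.le]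
      exact Real.pi_pos.ne
    rw [h4]; ring
  rw [h2] at h0
  rw [← h0]
  congr 1
  funext v
  have hv : ((Real.exp v : ℝ) : ℂ) ≠ 0 := by exact_mod_cast (Real.exp_pos v).ne'
  rw [abs_of_pos (Real.exp_pos v), Complex.real_smul, Complex.cpow_def_of_ne_zero hv,
    ← Complex.ofReal_log (Real.exp_pos v).le, Real.log_exp]
  rw [Complex.ofReal_exp, ← Complex.exp_add, ← Complex.exp_add]
  congr 1
  ring

/-- The Gamma integral with a complex rate. -/
theorem gammaLine {s a : ℂ} (hs : 0 < s.re) (ha : 0 < a.re) :
    ∫ v : ℝ, cexp (s * v - a * Real.exp v) = cexp (-(s * Complex.log a)) * Complex.Gamma s := by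
  set U : Set ℂ := {z : ℂ | 0 < z.re} with hU
  have hUo : IsOpen U := isOpen_lt continuous_const Complex.continuous_re
  have hUc : IsPreconnected U := (convex_halfSpace_re_gt 0).isPreconnected
  have hf : DifferentiableOn ℂ (fun a : ℂ => ∫ v : ℝ, cexp (s * v - a * Real.exp v)) U := by
    intro a0 ha0
    have ha0' : 0 < a0.re := ha0
    apply DifferentiableAt.differentiableWithinAt
    have h := hasDerivAt_integral_of_dominated_loc_of_deriv_le
      (μ := volume) (F := fun (a : ℂ) (v : ℝ) => cexp (s * v - a * Real.exp v))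
      (F' := fun (a : ℂ) (v : ℝ) => cexp (s * v - a * Real.exp v) * (-(Real.exp v : ℂ)))
      (x₀ := a0) (s := Metric.ball a0 (a0.re / 2))
      (bound := fun v : ℝ => Real.exp ((s.re + 1) * v - (a0.re / 2) * Real.exp v))
      (Metric.ball_mem_nhds a0 (by positivity))
      (Filter.Eventually.of_forall fun z => (continuous_line s z).aestronglyMeasurable)
      (integrable_line hs ha0')
      ?_ ?_ (integrable_exp_comp (by linarith) (by positivity)) ?_
    · exact h.2.differentiableAt
    · apply Continuous.aestronglyMeasurable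
      exact (continuous_line s a0).mul
        (Complex.continuous_ofReal.comp Real.continuous_exp).neg
    · refine Filter.Eventually.of_forall fun v z hz => ?_
      rw [norm_mul, norm_cexp_line, norm_neg, Complex.norm_real, Real.norm_eq_abs,
        abs_of_pos (Real.exp_pos v), ← Real.exp_add]
      apply Real.exp_le_exp.2
      have hz1 : a0.re / 2 ≤ z.re := by
        rw [Metric.mem_ball, dist_eq_norm] at hz
        have h1 := (Complex.abs_re_le_norm (z - a0)).trans hz.le
        rw [Complex.sub_re, abs_le] at h1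
        linarith [h1.1]
      have := mul_le_mul_of_nonneg_right hz1 (Real.exp_pos v).le
      linarith
    · refine Filter.Eventually.of_forall fun v z _ => ?_
      have h1 : HasDerivAt (fun z : ℂ => s * v - z * Real.exp v) (-(Real.exp v : ℂ)) z := by
        have h2 := ((hasDerivAt_id z).mul_const ((Real.exp v : ℝ) : ℂ)).const_sub (s * v)
        simpa using h2
      exact h1.cexp
  have hg : DifferentiableOn ℂ (fun a : ℂ => cexp (-(s * Complex.log a)) * Complex.Gamma s) U := by
    intro z hz
    have hz' : 0 < z.re := hz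
    apply DifferentiableAt.differentiableWithinAt
    have h1 : DifferentiableAt ℂ Complex.log z := Complex.differentiableAt_log (Or.inl hz')
    exact ((h1.const_mul s).neg.cexp).mul_const _
  have hfA := hf.analyticOnNhd hUo
  have hgA := hg.analyticOnNhd hUo
  have h1U : (1 : ℂ) ∈ U := by show (0:ℝ) < (1:ℂ).re; simp
  have hfreq : ∃ᶠ z in 𝓝[≠] (1 : ℂ),
      (fun a : ℂ => ∫ v : ℝ, cexp (s * v - a * Real.exp v)) z =
      (fun a : ℂ => cexp (-(s * Complex.log a)) * Complex.Gamma s) z := by
    have ht : Tendsto (fun n : ℕ => ((1 + 1 / ((n : ℝ) + 1) : ℝ) : ℂ)) atTop (𝓝[≠] (1 : ℂ)) := by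
      rw [tendsto_nhdsWithin_iff]
      constructor
      · have h1 : Tendsto (fun n : ℕ => (1 + 1 / ((n : ℝ) + 1) : ℝ)) atTop (𝓝 (1 + 0)) :=
          tendsto_one_div_add_atTop_nhds_zero_nat.const_add 1
        rw [add_zero] at h1
        have h2 := (Complex.continuous_ofReal.tendsto 1).comp h1
        rw [Complex.ofReal_one] at h2
        exact h2
      · refine Filter.Eventually.of_forall fun n => ?_
        have h3 : (0:ℝ) < 1 / ((n : ℝ) + 1) := by positivity
        intro h4
        have h5 : ((1 + 1 / ((n : ℝ) + 1) : ℝ) : ℂ) = ((1 : ℝ) : ℂ) := by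
          rw [h4]; simp
        have h6 := Complex.ofReal_injective h5
        linarith
    refine ht.frequently (Filter.Eventually.frequently (Filter.Eventually.of_forall fun n => ?_))
    exact gammaLine_real hs (by positivity)
  exact hfA.eqOn_of_preconnected_of_frequently_eq hgA hUc h1U hfreq ha

end Pool.Agent.Lib.MP_6bc78b_nt.MS.K
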